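import Pool.Agent.H3.FDA.Ren

/-!
# The `Σ₁`-hull

`t_hul`: the elements which are `Σ₁`-definable with parameters in `A` form a `Σ₁`-elementary
substructure of a model of `IΔ₀`.
-/

namespace Pool.FDA
namespace RN

open Function

variable {K : Type} [PAM K] {A : Set K}

/-- The element `s` is `Σ₁`-definable with parameters in `A`. -/
def Dfb (A : Set K) (s : K) : Prop := SR A fun v => v 0 = s

theorem dfb_par {a : K} (ha : a ∈ A) : Dfb A a := (DR.par ha 0).sr

/-- The form used in `SDef`. -/
theorem Dfb.sdef (h0 : (0 : K) ∈ A) {s : K} (h : Dfb A s) : SDef K A s := by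
  obtain ⟨Q, ⟨φ, hφ, e, he, hQ⟩, h⟩ := h
  obtain ⟨f, hf⟩ : ∃ f : ℕ → ℕ, f = fun n => if n = 0 then 1 else if n = 4 then 0 else n + 2 :=
    ⟨_, rfl⟩
  have hinj : Injective f := fun a b hab => by
    simp only [hf] at hab
    split_ifs at hab <;> omega
  obtain ⟨e', he'⟩ : ∃ e' : ℕ → K, e' = fun m => if m < 2 then 0 else mix (fun _ => 0) e (m - 2) :=
    ⟨_, rfl⟩
  refine ⟨fren f φ, d0_fren hinj hφ, e', fun n => ?_, fun w => ?_⟩
  · rw [he']
    show (if n < 2 then (0 : K) else mix (fun _ => 0) e (n - 2)) ∈ A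
    split_ifs
    · exact h0
    · unfold mix
      split_ifs
      · exact h0
      · exact he _
  · have h1 := h fun n => if n = 0 then w else 0
    simp only [if_true] at h1
    rw [h1]
    refine exists_congr fun z => ?_
    rw [sat_fren hinj, hQ]
    have k : update (update e' 0 w) 1 z ∘ f = mix (cz z fun n => if n = 0 then w else 0) e := by
      funext n
      simp only [comp, hf]
      rcases eq_or_ne n 0 with rfl | h2
      · rw [if_pos rfl, update_self]
        exact (mix_even (cz z fun n => if n = 0 then w else 0) e 0).symm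
      rw [if_neg h2]
      rcases eq_or_ne n 4 with rfl | h3
      · rw [if_pos rfl, update_of_ne (by omega), update_self]
        have h4 := mix_even (cz z fun n => if n = 0 then w else 0) e 2
        have h5 := cz_even z (fun n => if n = 0 then w else 0) 0
        rw [show 2 * 0 + 2 = 2 by omega] at h5
        rw [show 2 * 2 = 4 by omega] at h4
        rw [h4, h5, if_pos rfl]
      rw [if_neg h3, update_of_ne (by omega), update_of_ne (by omega), he']
      show (if n + 2 < 2 then (0 : K) else mix (fun _ => 0) e (n + 2 - 2)) = _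
      rw [if_neg (by omega), show n + 2 - 2 = n by omega]
      rcases even_or n with ⟨m, rfl | rfl⟩ | ⟨m, rfl⟩
      · rw [mix_even, mix_even]
        rcases cz_or m with h6 | ⟨l, h6⟩ | ⟨l, h6⟩
        · omega
        · rw [h6, cz_even, if_neg (by omega)]
        · rw [h6, cz_odd]
      · rw [mix_odd, mix_odd]
    rw [k]

/-- **The least witness** of a `Δ₀`-formula with definable parameters is definable. -/
theorem dfb_least (hCOI : COIStmt) (h0 : (0 : K) ∈ A) {ψ : Fm} (hψ : D0 ψ) (x : ℕ) {s : ℕ → K}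
    (hs : ∀ j, Dfb A (s j)) {w₀ : K} (h1 : Sat (update s x w₀) ψ)
    (h2 : ∀ w < w₀, ¬ Sat (update s x w) ψ) : Dfb A w₀ := by
  obtain ⟨F, hF⟩ : ∃ F, F = ψ.fv.erase x := ⟨_, rfl⟩
  obtain ⟨σ, hσ⟩ : ∃ σ : ℕ → ℕ, σ = fun j => if j = x then 0 else j + 1 := ⟨_, rfl⟩
  have hσi : Injective σ := fun a b hab => by
    simp only [hσ] at hab
    split_ifs at hab <;> omega
  have hsi : Injective fun n : ℕ => n + 1 := fun a b hab => by
    simp only at hab
    omega
  have hR : SR A fun v => (∀ j ∈ F, v (j + 1) = s j) ∧ (Sat (v ∘ σ) ψ ∧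
      ¬ ∃ w, w < v 0 ∧ Sat (update v (x + 1) w ∘ fun n => n + 1) ψ) := by
    refine (SR.all h0 F fun j _ => ?_).and (((DR.sat h0 hψ).sub hσi).and
      (((DR.sat h0 hψ).sub hsi).bex (k := x + 1) (m := 0) (by omega)).not).sr
    have h3 := (hs j).sub (σ := fun n => n + (j + 1)) fun a b hab => by
      simp only at hab
      omega
    refine h3.congr fun v => ?_
    simp only [comp, Nat.zero_add]
  refine (hR.exs (F.image fun n => n + 1)).congr fun v => ⟨fun hv => ?_, ?_⟩
  · obtain ⟨u, hu⟩ : ∃ u : ℕ → K, u = fun i => if i ∈ F.image (fun n => n + 1) then s (i - 1)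
        else v i := ⟨_, rfl⟩
    have u0 : u 0 = w₀ := by
      rw [hu]
      show (if (0 : ℕ) ∈ F.image (fun n => n + 1) then s (0 - 1) else v 0) = w₀
      rw [if_neg (fun h3 => by
        obtain ⟨a, -, ha⟩ := Finset.mem_image.1 h3
        omega)]
      exact hv
    have u1 : ∀ j ∈ F, u (j + 1) = s j := fun j hj => by
      rw [hu]
      show (if j + 1 ∈ F.image (fun n => n + 1) then s (j + 1 - 1) else v (j + 1)) = s j
      rw [if_pos (Finset.mem_image.2 ⟨j, hj, rfl⟩), Nat.add_sub_cancel]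
    refine ⟨u, fun i hi => ?_, u1, ?_, ?_⟩
    · rw [hu]
      exact if_neg hi
    · refine (hCOI K ψ _ _ fun n hn => ?_).1 h1
      simp only [comp, hσ]
      rcases eq_or_ne n x with h3 | h3
      · rw [h3, update_self, if_pos rfl, u0]
      · rw [update_of_ne h3, if_neg h3, u1 n (by
          rw [hF]
          exact Finset.mem_erase.2 ⟨h3, hn⟩)]
    · rintro ⟨w, hw, hsat⟩
      rw [u0] at hw
      refine h2 w hw ((hCOI K ψ _ _ fun n hn => ?_).1 hsat)
      simp only [comp]
      rcases eq_or_ne n x with h3 | h3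
      · rw [h3, update_self, update_self]
      · rw [update_of_ne h3, update_of_ne (by omega), u1 n (by
          rw [hF]
          exact Finset.mem_erase.2 ⟨h3, hn⟩)]
  · rintro ⟨u, hu, u1, hsat, hno⟩
    have u0 : u 0 = v 0 := hu 0 fun h3 => by
      obtain ⟨a, -, ha⟩ := Finset.mem_image.1 h3
      omega
    have k1 : Sat (update s x (u 0)) ψ := by
      refine (hCOI K ψ _ _ fun n hn => ?_).1 hsat
      simp only [comp, hσ]
      rcases eq_or_ne n x with h3 | h3
      · rw [h3, update_self, if_pos rfl]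
      · rw [update_of_ne h3, if_neg h3, u1 n (by
          rw [hF]
          exact Finset.mem_erase.2 ⟨h3, hn⟩)]
    rw [← u0]
    rcases lt_trichotomy (u 0) w₀ with h3 | h3 | h3
    · exact absurd k1 (h2 _ h3)
    · exact h3
    · refine absurd ⟨w₀, h3, (hCOI K ψ _ _ fun n hn => ?_).1 h1⟩ hno
      simp only [comp]
      rcases eq_or_ne n x with h4 | h4
      · rw [h4, update_self, update_self]
      · rw [update_of_ne h4, update_of_ne (by omega), u1 n (by
          rw [hF]
          exact Finset.mem_erase.2 ⟨h4, hn⟩)]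

/-- **Witnesses** of `Δ₀`-formulas with definable parameters. -/
theorem dfb_wit (hCOI : COIStmt) (hLNP : LNPStmt) (hK : IDelta0 K) (h0 : (0 : K) ∈ A) {ψ : Fm}
    (hψ : D0 ψ) (x : ℕ) {s : ℕ → K} (hs : ∀ j, Dfb A (s j)) (h : ∃ w, Sat (update s x w) ψ) :
    ∃ w, Dfb A w ∧ Sat (update s x w) ψ := by
  obtain ⟨w, h1, h2⟩ := hLNP K hK ψ hψ x s h
  exact ⟨w, dfb_least hCOI h0 hψ x hs h1 h2, h1⟩

/-- **Witnesses** of `Δ₀`-relations. -/
theorem dfb_witR (hCOI : COIStmt) (hLNP : LNPStmt) (hK : IDelta0 K) (h0 : (0 : K) ∈ A)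
    {Q : (ℕ → K) → Prop} (hQ : DR A Q) (x : ℕ) {s : ℕ → K} (hs : ∀ j, Dfb A (s j))
    (h : ∃ w, Q (update s x w)) : ∃ w, Dfb A w ∧ Q (update s x w) := by
  obtain ⟨φ, hφ, e, he, hQ⟩ := hQ
  have k : ∀ w, Q (update s x w) ↔ Sat (update (mix s e) (2 * x) w) φ := fun w => by
    rw [hQ, mix_update]
  simp only [k] at h ⊢
  refine dfb_wit hCOI hLNP hK h0 hφ (2 * x) (fun j => ?_) h
  rcases even_or j with ⟨m, rfl | rfl⟩ | ⟨m, rfl⟩
  · rw [mix_even]
    exact hs m
  · rw [mix_odd]
    exact dfb_par (he m)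

/-- `Σ₁`-formulas. -/
theorem sg1_ind {motive : Fm → Prop} (h0 : ∀ φ, D0 φ → motive φ)
    (hex : ∀ x φ, Sg 1 φ → motive φ → motive (.ex x φ)) :
    ∀ {b : Bool} {n : ℕ} {φ : Fm}, SP b n φ → b = true → n = 1 → motive φ := by
  intro b n φ h
  induction h with
  | base b hφ => intro _ h; omega
  | up b h _ =>
    intro _ h2
    have h3 : ∀ {b : Bool} {n : ℕ} {φ : Fm}, SP b n φ → n = 0 → D0 φ := by
      intro b n φ h
      cases h with
      | base b h => exact fun _ => h
      | up b h => intro h; omega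
      | ex x h => intro h; omega
      | all x h => intro h; omega
    exact h0 _ (h3 h (by omega))
  | ex x h ih =>
    intro _ h2
    obtain rfl : _ = 0 := Nat.succ.inj h2
    exact hex x _ h (ih rfl rfl)
  | all x h ih => intro h1; exact absurd h1 (by decide)

/-- `Σ₁`-formulas define `Σ₁`-relations. -/
theorem sr_sat (h0 : (0 : K) ∈ A) {φ : Fm} (h : Sg 1 φ) : SR A fun v : ℕ → K => Sat v φ :=
  sg1_ind (motive := fun φ => SR A fun v : ℕ → K => Sat v φ) (fun _ h => (DR.sat h0 h).sr)
    (fun x _ _ h => h.ex x) h rfl rfl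

/-- **Witnesses** of `Σ₁`-relations. -/
theorem dfb_wit1 (hCOI : COIStmt) (hLNP : LNPStmt) (hK : IDelta0 K) (h0 : (0 : K) ∈ A)
    {R : (ℕ → K) → Prop} (hR : SR A R) (x : ℕ) {s : ℕ → K} (hs : ∀ j, Dfb A (s j))
    (h : ∃ w, R (update s x w)) : ∃ w, Dfb A w ∧ R (update s x w) := by
  obtain ⟨Q, hQ, hR⟩ := hR
  obtain ⟨w, hw⟩ := h
  obtain ⟨z, hz⟩ := (hR _).1 hw
  have hS' := (hQ.sub (t2_inj x)).bex (k := 3) (m := 0) (by omega)
  have hS := hS'.bex (k := 1) (m := 0) (by omega)
  have e : ∀ z x : K, update (cz z s) 1 x 0 = z := fun z x => by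
    rw [update_of_ne (by omega), cz_zero]
  have hc : ∀ y, Dfb A y → ∀ j, Dfb A (cz y s j) := fun y hy j => by
    rcases cz_or j with rfl | ⟨m, rfl⟩ | ⟨m, rfl⟩
    · rw [cz_zero]
      exact hy
    · rw [cz_even]
      exact hs m
    · rw [cz_odd]
      exact dfb_par h0
  have e0 : ∀ y : K, update (cz 0 s) 0 y = cz y s := fun y => by
    funext n
    rcases cz_or n with rfl | ⟨m, rfl⟩ | ⟨m, rfl⟩
    · rw [update_self, cz_zero]
    · rw [update_of_ne (by omega), cz_even, cz_even]
    · rw [update_of_ne (by omega), cz_odd, cz_odd]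
  obtain ⟨y, hy, hSy⟩ := dfb_witR hCOI hLNP hK h0 hS 0 (hc 0 (dfb_par h0)) ⟨max w z + 1, by
    rw [e0]
    simp only [cz_t2, cz_zero, e]
    exact ⟨w, lt_of_le_of_lt (le_max_left _ _) (lt_add_one _), z,
      lt_of_le_of_lt (le_max_right _ _) (lt_add_one _), hz⟩⟩
  rw [e0] at hSy
  obtain ⟨w', -, hw'⟩ := hSy
  obtain ⟨w₁, h1, h2⟩ := dfb_witR hCOI hLNP hK h0 hS' 1 (hc y hy) ⟨w', hw'⟩
  simp only [cz_t2, e] at h2
  obtain ⟨z', -, hz'⟩ := h2
  exact ⟨w₁, h1, (hR _).2 ⟨z', hz'⟩⟩

/-- The closure properties. -/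
theorem dfb_cl (hCOI : COIStmt) (hLNP : LNPStmt) (hK : IDelta0 K) (h0 : (0 : K) ∈ A) :
    Dfb A (1 : K) ∧ (∀ a b : K, Dfb A a → Dfb A b → Dfb A (a + b)) ∧
      (∀ a b : K, Dfb A a → Dfb A b → Dfb A (a * b)) ∧
      ∀ a b c : K, Dfb A a → Dfb A b → a + c = b → Dfb A c := by
  have hs : ∀ a b : K, Dfb A a → Dfb A b → ∀ j : ℕ, Dfb A ((fun n => if n = 1 then a else b : ℕ → K) j) :=
    fun a b ha hb j => by
      show Dfb A (if j = 1 then a else b)
      split_ifs
      · exact ha
      · exact hb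
  refine ⟨?_, fun a b ha hb => ?_, fun a b ha hb => ?_, fun a b c ha hb hc => ?_⟩
  · obtain ⟨w, h1, h2⟩ := dfb_wit hCOI hLNP hK h0 (ψ := .eq (.var 0) .one) (.eq _ _) 0
      (fun _ => dfb_par h0) ⟨1, by
        show update (fun _ : ℕ => (0 : K)) 0 (1 : K) 0 = 1
        rw [update_self]⟩
    have h3 : update (fun _ => (0 : K)) 0 w 0 = 1 := h2
    rw [update_self] at h3
    rwa [h3] at h1
  · obtain ⟨w, h1, h2⟩ := dfb_wit hCOI hLNP hK h0 (ψ := .eq (.var 0) (.add (.var 1) (.var 2)))
      (.eq _ _) 0 (hs a b ha hb) ⟨a + b, by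
        show update (fun n : ℕ => if n = 1 then a else b) 0 (a + b) 0 =
          update (fun n : ℕ => if n = 1 then a else b) 0 (a + b) 1 +
          update (fun n : ℕ => if n = 1 then a else b) 0 (a + b) 2
        rw [update_self, update_of_ne (by omega), update_of_ne (by omega)]
        rfl⟩
    have h3 : update (fun n => if n = 1 then a else b) 0 w 0 =
      update (fun n => if n = 1 then a else b) 0 w 1 + update (fun n => if n = 1 then a else b) 0 w 2
      := h2
    rw [update_self, update_of_ne (by omega), update_of_ne (by omega)] at h3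
    have h4 : w = a + b := h3
    rwa [h4] at h1
  · obtain ⟨w, h1, h2⟩ := dfb_wit hCOI hLNP hK h0 (ψ := .eq (.var 0) (.mul (.var 1) (.var 2)))
      (.eq _ _) 0 (hs a b ha hb) ⟨a * b, by
        show update (fun n : ℕ => if n = 1 then a else b) 0 (a * b) 0 =
          update (fun n : ℕ => if n = 1 then a else b) 0 (a * b) 1 *
          update (fun n : ℕ => if n = 1 then a else b) 0 (a * b) 2
        rw [update_self, update_of_ne (by omega), update_of_ne (by omega)]
        rfl⟩
    have h3 : update (fun n => if n = 1 then a else b) 0 w 0 =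
      update (fun n => if n = 1 then a else b) 0 w 1 * update (fun n => if n = 1 then a else b) 0 w 2
      := h2
    rw [update_self, update_of_ne (by omega), update_of_ne (by omega)] at h3
    have h4 : w = a * b := h3
    rwa [h4] at h1
  · obtain ⟨w, h1, h2⟩ := dfb_wit hCOI hLNP hK h0 (ψ := .eq (.add (.var 1) (.var 0)) (.var 2))
      (.eq _ _) 0 (hs a b ha hb) ⟨c, by
        show update (fun n : ℕ => if n = 1 then a else b) 0 c 1 +
          update (fun n : ℕ => if n = 1 then a else b) 0 c 0 =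
          update (fun n : ℕ => if n = 1 then a else b) 0 c 2
        rw [update_self, update_of_ne (by omega), update_of_ne (by omega)]
        exact hc⟩
    have h3 : update (fun n => if n = 1 then a else b) 0 w 1 +
      update (fun n => if n = 1 then a else b) 0 w 0 = update (fun n => if n = 1 then a else b) 0 w 2
      := h2
    rw [update_self, update_of_ne (by omega), update_of_ne (by omega)] at h3
    have h4 : a + w = b := h3
    rw [← hc] at h4
    have h5 : w = c := add_left_cancel h4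
    rwa [h5] at h1

end RN

open RN Function

/-- **The `Σ₁`-hull.** -/
theorem t_hul (hCOI : COIStmt) (hLNP : LNPStmt) : HULStmt := by
  intro K _ hK A h0
  obtain ⟨c1, c2, c3, c4⟩ := dfb_cl hCOI hLNP hK h0
  obtain ⟨H, hH⟩ : ∃ H : Subsemiring K, ∀ s, s ∈ H ↔ Dfb A s :=
    ⟨{ carrier := {s | Dfb A s}
       mul_mem' := fun {a b} ha hb => c3 a b ha hb
       one_mem' := c1
       add_mem' := fun {a b} ha hb => c2 a b ha hb
       zero_mem' := dfb_par h0 }, fun _ => Iff.rfl⟩
  let _ : PAM H :=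
    { (inferInstance : CommSemiring H), (inferInstance : LinearOrder H),
      (inferInstance : IsStrictOrderedRing H) with
      zero_le' := fun x => PAM.zero_le' (x : K)
      sub' := fun x y hxy => by
        obtain ⟨z, hz⟩ := PAM.sub' (x : K) y hxy
        exact ⟨⟨z, (hH z).2 (c4 x y z ((hH _).1 x.2) ((hH _).1 y.2) hz)⟩, Subtype.ext hz⟩
      disc' := fun x hx => PAM.disc' (x : K) hx }
  have hval : ∀ (t : Tm) (e : ℕ → H), t.val (fun n => (e n : K)) = ((t.val e : H) : K) := by
    intro t e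
    induction t with
    | var n => rfl
    | zero => rfl
    | one => rfl
    | add s t h1 h2 =>
      show s.val _ + t.val _ = ((s.val e + t.val e : H) : K)
      rw [h1, h2]
      rfl
    | mul s t h1 h2 =>
      show s.val _ * t.val _ = ((s.val e * t.val e : H) : K)
      rw [h1, h2]
      rfl
  have hupd : ∀ (e : ℕ → H) (n : ℕ) (w : H), (fun m => ((update e n w m : H) : K)) =
      update (fun m => (e m : K)) n w := fun e n w => by
    funext m
    rcases eq_or_ne m n with h | h
    · rw [h, update_self, update_self]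
    · rw [update_of_ne h, update_of_ne h]
  have hd : ∀ (e : ℕ → H) (j : ℕ), Dfb A ((fun m => (e m : K)) j) := fun e j => (hH _).1 (e j).2
  have hA0 : Abs0 (fun x : H => (x : K)) := by
    intro φ hφ
    induction hφ with
    | eq s t =>
      intro e
      show s.val e = t.val e ↔ s.val (fun n => (e n : K)) = t.val (fun n => (e n : K))
      rw [hval, hval]
      exact Subtype.ext_iff
    | lt s t =>
      intro e
      show s.val e < t.val e ↔ s.val (fun n => (e n : K)) < t.val (fun n => (e n : K))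
      rw [hval, hval]
      exact Iff.rfl
    | neg _ h => exact fun e => not_congr (h e)
    | and _ _ h1 h2 => exact fun e => and_congr (h1 e) (h2 e)
    | bex n t hn hφ h =>
      rename_i φ
      intro e
      constructor
      · rintro ⟨w, hw1, hw2⟩
        refine ⟨(w : K), ?_, ?_⟩
        · show (Tm.var n).val _ < t.val _
          rw [← hupd, hval, hval]
          exact hw1
        · rw [← hupd]
          exact (h _).1 hw2
      · intro hex
        obtain ⟨w, hw1, hw2, hw3⟩ := dfb_wit hCOI hLNP hK h0 (ψ := .and (.lt (.var n) t) φ)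
          (.and (.lt _ _) hφ) n (hd e) hex
        have hw2' : (Tm.var n).val (update (fun m => (e m : K)) n w) <
          t.val (update (fun m => (e m : K)) n w) := hw2
        refine ⟨⟨w, (hH w).2 hw1⟩, ?_, ?_⟩
        · show (Tm.var n).val _ < t.val _
          rw [← Subtype.coe_lt_coe, ← hval, ← hval, hupd]
          exact hw2'
        · rw [h, hupd]
          exact hw3
  refine ⟨H, inferInstance, H.subtype, fun a b h => h, hA0, ?_, fun a ha =>
    ⟨⟨a, (hH a).2 (dfb_par ha)⟩, rfl⟩, fun h => ((hH _).1 h.2).sdef h0⟩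
  intro φ hφ
  refine sg1_ind (motive := fun φ => ∀ e : ℕ → H, Sat e φ ↔ Sat (fun n => (e n : K)) φ)
    (fun φ h => hA0 φ h) (fun x φ hφ h e => ?_) hφ rfl rfl
  constructor
  · rintro ⟨w, hw⟩
    refine ⟨(w : K), ?_⟩
    rw [← hupd]
    exact (h _).1 hw
  · intro hex
    obtain ⟨w, hw1, hw2⟩ := dfb_wit1 hCOI hLNP hK h0 (sr_sat h0 hφ) x (hd e) hex
    refine ⟨⟨w, (hH w).2 hw1⟩, ?_⟩
    rw [h, hupd]
    exact hw2

end Pool.FDA
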