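import Pool.Agent.H86.FDA.S1

/-!
# Renaming of variables, and a calculus of `Δ₀`- and `Σ₁`-relations with parameters

`tren`, `fren`: renaming by a map; `sat_fren`: its meaning, for injective maps.
`DR A R`: the relation `R` between (sequences of) elements is defined by a `Δ₀`-formula with
parameters in `A`. `SR A R`: the same with one unbounded existential quantifier in front.
-/

namespace Pool.FDA
namespace RN

open Function

/-- Renaming of the variables of a term. -/
def tren (f : ℕ → ℕ) : Tm → Tm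
  | .var n => .var (f n)
  | .zero => .zero
  | .one => .one
  | .add s t => .add (tren f s) (tren f t)
  | .mul s t => .mul (tren f s) (tren f t)

/-- Renaming of all variables of a formula. -/
def fren (f : ℕ → ℕ) : Fm → Fm
  | .eq s t => .eq (tren f s) (tren f t)
  | .lt s t => .lt (tren f s) (tren f t)
  | .neg φ => .neg (fren f φ)
  | .and φ ψ => .and (fren f φ) (fren f ψ)
  | .ex n φ => .ex (f n) (fren f φ)

theorem val_tren {K : Type} [PAM K] (f : ℕ → ℕ) (e : ℕ → K) (t : Tm) :
    (tren f t).val e = t.val (e ∘ f) := by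
  induction t with
  | var n => rfl
  | zero => rfl
  | one => rfl
  | add s t h1 h2 => simp only [tren, Tm.val, h1, h2]
  | mul s t h1 h2 => simp only [tren, Tm.val, h1, h2]

theorem mem_tren {f : ℕ → ℕ} (hf : Injective f) (n : ℕ) (t : Tm) :
    f n ∈ (tren f t).vars ↔ n ∈ t.vars := by
  induction t with
  | var m => simp only [tren, Tm.vars, Finset.mem_singleton, hf.eq_iff]
  | zero => simp [tren, Tm.vars]
  | one => simp [tren, Tm.vars]
  | add s t h1 h2 => simp only [tren, Tm.vars, Finset.mem_union, h1, h2]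
  | mul s t h1 h2 => simp only [tren, Tm.vars, Finset.mem_union, h1, h2]

theorem sat_fren {K : Type} [PAM K] {f : ℕ → ℕ} (hf : Injective f) (φ : Fm) :
    ∀ e : ℕ → K, Sat e (fren f φ) ↔ Sat (e ∘ f) φ := by
  induction φ with
  | eq s t => intro e; simp only [fren, Sat, val_tren]
  | lt s t => intro e; simp only [fren, Sat, val_tren]
  | neg φ h => intro e; simp only [fren, Sat, h]
  | and φ ψ h1 h2 => intro e; simp only [fren, Sat, h1, h2]
  | ex n φ h =>
    intro e
    simp only [fren, Sat, h]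
    refine exists_congr fun x => ?_
    rw [update_comp_eq_of_injective _ hf]

theorem d0_fren {f : ℕ → ℕ} (hf : Injective f) {φ : Fm} (h : D0 φ) : D0 (fren f φ) := by
  induction h with
  | eq s t => exact .eq _ _
  | lt s t => exact .lt _ _
  | neg _ h => exact .neg h
  | and _ _ h1 h2 => exact .and h1 h2
  | bex n t hn _ h => exact .bex (f n) (tren f t) (fun h' => hn ((mem_tren hf n t).1 h')) h

section

variable {K : Type}

/-- Variables at the even places, parameters at the odd ones. -/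
def mix (v e : ℕ → K) (n : ℕ) : K := if n % 2 = 0 then v (n / 2) else e (n / 2)

theorem mix_even (v e : ℕ → K) (n : ℕ) : mix v e (2 * n) = v n := by
  unfold mix
  rw [if_pos (by omega), show 2 * n / 2 = n by omega]

theorem mix_odd (v e : ℕ → K) (n : ℕ) : mix v e (2 * n + 1) = e n := by
  unfold mix
  rw [if_neg (by omega), show (2 * n + 1) / 2 = n by omega]

theorem even_or (n : ℕ) : (∃ m, n = 2 * m) ∨ ∃ m, n = 2 * m + 1 := by
  rcases Nat.even_or_odd' n with ⟨m, h | h⟩
  · exact Or.inl ⟨m, h⟩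
  · exact Or.inr ⟨m, h⟩

theorem mix_update (v e : ℕ → K) (k : ℕ) (x : K) :
    mix (update v k x) e = update (mix v e) (2 * k) x := by
  funext n
  rcases even_or n with ⟨m, rfl | rfl⟩ | ⟨m, rfl⟩
  · rw [mix_even]
    rcases eq_or_ne m k with h | h
    · rw [h, update_self, update_self]
    · rw [update_of_ne h, update_of_ne (by omega), mix_even]
  · rw [mix_odd, update_of_ne (by omega), mix_odd]

end

variable {K : Type} [PAM K] {A : Set K}

/-- **`Δ₀`-relations** with parameters in `A`. -/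
def DR (A : Set K) (R : (ℕ → K) → Prop) : Prop :=
  ∃ φ : Fm, D0 φ ∧ ∃ e : ℕ → K, (∀ n, e n ∈ A) ∧ ∀ v, R v ↔ Sat (mix v e) φ

theorem DR.congr {R R' : (ℕ → K) → Prop} (h : DR A R) (h' : ∀ v, R' v ↔ R v) : DR A R' := by
  obtain ⟨φ, hφ, e, he, h⟩ := h
  exact ⟨φ, hφ, e, he, fun v => (h' v).trans (h v)⟩

theorem DR.not {R : (ℕ → K) → Prop} (h : DR A R) : DR A fun v => ¬ R v := by
  obtain ⟨φ, hφ, e, he, h⟩ := h
  exact ⟨.neg φ, .neg hφ, e, he, fun v => not_congr (h v)⟩

theorem DR.and {R R' : (ℕ → K) → Prop} (h : DR A R) (h' : DR A R') :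
    DR A fun v => R v ∧ R' v := by
  obtain ⟨φ, hφ, e, he, h⟩ := h
  obtain ⟨φ', hφ', e', he', h'⟩ := h'
  obtain ⟨f, hf⟩ : ∃ f : ℕ → ℕ → ℕ, f = fun i n =>
    if n % 2 = 0 then n else 2 * (2 * (n / 2) + i) + 1 := ⟨_, rfl⟩
  have hinj : ∀ i ≤ 1, Injective (f i) := fun i hi a b hab => by
    simp only [hf] at hab
    split_ifs at hab <;> omega
  have k0 : ∀ v : ℕ → K, mix v (mix e e') ∘ f 0 = mix v e := fun v => by
    funext n
    rcases even_or n with ⟨m, rfl | rfl⟩ | ⟨m, rfl⟩
    · simp only [comp, hf]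
      rw [if_pos (by omega)]
      simp only [mix_even]
    · simp only [comp, hf]
      rw [if_neg (by omega), show 2 * (2 * ((2 * m + 1) / 2) + 0) + 1 = 2 * (2 * m) + 1 by omega,
        mix_odd, mix_odd, mix_even]
  have k1 : ∀ v : ℕ → K, mix v (mix e e') ∘ f 1 = mix v e' := fun v => by
    funext n
    rcases even_or n with ⟨m, rfl | rfl⟩ | ⟨m, rfl⟩
    · simp only [comp, hf]
      rw [if_pos (by omega)]
      simp only [mix_even]
    · simp only [comp, hf]
      rw [if_neg (by omega), show 2 * (2 * ((2 * m + 1) / 2) + 1) + 1 = 2 * (2 * m + 1) + 1 by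
        omega, mix_odd, mix_odd, mix_odd]
  refine ⟨.and (fren (f 0) φ) (fren (f 1) φ'), .and (d0_fren (hinj 0 (by omega)) hφ)
    (d0_fren (hinj 1 le_rfl) hφ'), mix e e', fun n => ?_, fun v => ?_⟩
  · rcases even_or n with ⟨m, rfl | rfl⟩ | ⟨m, rfl⟩
    · rw [mix_even]
      exact he _
    · rw [mix_odd]
      exact he' _
  · show R v ∧ R' v ↔ Sat _ _ ∧ Sat _ _
    rw [h v, h' v]
    rw [sat_fren (hinj 0 (by omega)), sat_fren (hinj 1 le_rfl), k0, k1]

/-- Injective substitution of variables. -/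
theorem DR.sub {R : (ℕ → K) → Prop} (h : DR A R) {σ : ℕ → ℕ} (hσ : Injective σ) :
    DR A fun v => R (v ∘ σ) := by
  obtain ⟨φ, hφ, e, he, h⟩ := h
  obtain ⟨f, hf⟩ : ∃ f : ℕ → ℕ, f = fun n => if n % 2 = 0 then 2 * σ (n / 2) else n := ⟨_, rfl⟩
  have hinj : Injective f := fun a b hab => by
    simp only [hf] at hab
    split_ifs at hab with h1 h2 h2
    · have h3 := hσ (show σ (a / 2) = σ (b / 2) by omega)
      omega
    · omega
    · omega
    · exact hab
  refine ⟨fren f φ, d0_fren hinj hφ, e, he, fun v => ?_⟩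
  show R (v ∘ σ) ↔ _
  rw [h, sat_fren hinj]
  have k : mix v e ∘ f = mix (v ∘ σ) e := by
    funext n
    rcases even_or n with ⟨m, rfl | rfl⟩ | ⟨m, rfl⟩
    · simp only [comp, hf]
      rw [if_pos (by omega), show 2 * m / 2 = m by omega, mix_even, mix_even]
      rfl
    · simp only [comp, hf]
      rw [if_neg (by omega), mix_odd, mix_odd]
  rw [k]

/-- Bounded quantifiers. -/
theorem DR.bex {R : (ℕ → K) → Prop} (h : DR A R) {k m : ℕ} (hkm : k ≠ m) :
    DR A fun v => ∃ x, x < v m ∧ R (update v k x) := by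
  obtain ⟨φ, hφ, e, he, h⟩ := h
  refine ⟨.ex (2 * k) (.and (.lt (.var (2 * k)) (.var (2 * m))) φ), .bex _ _ (by
    simp only [Tm.vars, Finset.mem_singleton]
    omega) hφ, e, he, fun v => ?_⟩
  show _ ↔ ∃ x, update (mix v e) (2 * k) x (2 * k) < update (mix v e) (2 * k) x (2 * m) ∧
    Sat (update (mix v e) (2 * k) x) φ
  refine exists_congr fun x => ?_
  rw [update_self, update_of_ne (by omega), mix_even, h, mix_update]

/-- `Δ₀`-formulas. -/
theorem DR.sat (h0 : (0 : K) ∈ A) {φ : Fm} (hφ : D0 φ) : DR A fun v => Sat v φ := by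
  have hinj : Injective fun n : ℕ => 2 * n := fun a b hab => by
    simp only at hab
    omega
  refine ⟨fren (fun n => 2 * n) φ, d0_fren hinj hφ, fun _ => 0, fun _ => h0, fun v => ?_⟩
  rw [sat_fren hinj]
  have k : mix v (fun _ => (0 : K)) ∘ (fun n : ℕ => 2 * n) = v := by
    funext n
    exact mix_even _ _ n
  rw [k]

/-- Parameters. -/
theorem DR.par {a : K} (ha : a ∈ A) (i : ℕ) : DR A fun v => v i = a := by
  refine ⟨.eq (.var (2 * i)) (.var 1), .eq _ _, fun _ => a, fun _ => ha, fun v => ?_⟩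
  show _ ↔ mix v _ (2 * i) = mix v _ (2 * 0 + 1)
  rw [mix_even, mix_odd]

/-- `Δ₀`-formulas with some of the variables replaced by parameters. -/
theorem DR.satp {φ : Fm} (hφ : D0 φ) {e : ℕ → K} (he : ∀ n, e n ∈ A) {p : ℕ → Bool} {g : ℕ → ℕ}
    (hg : ∀ a b, p a = true → p b = true → g a = g b → a = b) :
    DR A fun v => Sat (fun n => if p n = true then v (g n) else e n) φ := by
  obtain ⟨f, hf⟩ : ∃ f : ℕ → ℕ, f = fun n => if p n = true then 2 * g n else 2 * n + 1 := ⟨_, rfl⟩
  have hinj : Injective f := fun a b hab => by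
    simp only [hf] at hab
    split_ifs at hab with h1 h2 h2
    · exact hg a b h1 h2 (by omega)
    · omega
    · omega
    · omega
  refine ⟨fren f φ, d0_fren hinj hφ, e, he, fun v => ?_⟩
  rw [sat_fren hinj]
  have k : mix v e ∘ f = fun n => if p n = true then v (g n) else e n := by
    funext n
    simp only [comp, hf]
    split_ifs
    · exact mix_even _ _ _
    · exact mix_odd _ _ _
  rw [k]

/-- The witness at the place `0`, the variables at the other even places, `0` at the odd places. -/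
def cz (z : K) (v : ℕ → K) (n : ℕ) : K :=
  if n = 0 then z else if n % 2 = 0 then v (n / 2 - 1) else 0

theorem cz_zero (z : K) (v : ℕ → K) : cz z v 0 = z := if_pos rfl

theorem cz_even (z : K) (v : ℕ → K) (n : ℕ) : cz z v (2 * n + 2) = v n := by
  unfold cz
  rw [if_neg (by omega), if_pos (by omega), show (2 * n + 2) / 2 - 1 = n by omega]

theorem cz_odd (z : K) (v : ℕ → K) (n : ℕ) : cz z v (2 * n + 1) = 0 := by
  unfold cz
  rw [if_neg (by omega), if_neg (by omega)]

theorem cz_or (n : ℕ) : n = 0 ∨ (∃ m, n = 2 * m + 2) ∨ ∃ m, n = 2 * m + 1 := by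
  rcases even_or n with ⟨m, h⟩ | ⟨m, h⟩
  · rcases Nat.eq_zero_or_pos m with h1 | h1
    · exact Or.inl (by omega)
    · exact Or.inr (Or.inl ⟨m - 1, by omega⟩)
  · exact Or.inr (Or.inr ⟨m, h⟩)

/-- **`Σ₁`-relations** with parameters in `A`. -/
def SR (A : Set K) (R : (ℕ → K) → Prop) : Prop :=
  ∃ Q, DR A Q ∧ ∀ v, R v ↔ ∃ z, Q (cz z v)

theorem SR.congr {R R' : (ℕ → K) → Prop} (h : SR A R) (h' : ∀ v, R' v ↔ R v) : SR A R' := by
  obtain ⟨Q, hQ, h⟩ := h
  exact ⟨Q, hQ, fun v => (h' v).trans (h v)⟩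

theorem DR.sr {R : (ℕ → K) → Prop} (h : DR A R) : SR A R := by
  refine ⟨_, h.sub (σ := fun n => 2 * n + 2) (fun a b hab => by simp only at hab; omega),
    fun v => ?_⟩
  have k : ∀ z : K, cz z v ∘ (fun n : ℕ => 2 * n + 2) = v := fun z => by
    funext n
    exact cz_even _ _ _
  simp only [k, exists_const]

/-- The witness moved to the place `1`. -/
def t1 (n : ℕ) : ℕ := if n = 0 then 1 else if n % 2 = 1 then n + 2 else n

theorem t1_inj : Injective t1 := fun a b hab => by
  simp only [t1] at hab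
  split_ifs at hab <;> omega

theorem cz_t1 (z y : K) (v : ℕ → K) : update (cz z v) 1 y ∘ t1 = cz y v := by
  funext n
  rcases cz_or n with rfl | ⟨m, rfl⟩ | ⟨m, rfl⟩
  · simp only [comp, t1, if_true, update_self, cz_zero]
  · simp only [comp, t1]
    rw [if_neg (by omega), if_neg (by omega), update_of_ne (by omega), cz_even, cz_even]
  · simp only [comp, t1]
    rw [if_neg (by omega), if_pos (by omega), update_of_ne (by omega),
      show 2 * m + 1 + 2 = 2 * (m + 1) + 1 by omega, cz_odd, cz_odd]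

/-- The witness moved to the place `3`, the variable `k` to the place `1`. -/
def t2 (k n : ℕ) : ℕ :=
  if n = 0 then 3 else if n = 2 * k + 2 then 1 else if n % 2 = 1 then n + 4 else n

theorem t2_inj (k : ℕ) : Injective (t2 k) := fun a b hab => by
  simp only [t2] at hab
  split_ifs at hab <;> omega

theorem cz_t2 (z x y : K) (v : ℕ → K) (k : ℕ) :
    update (update (cz z v) 1 x) 3 y ∘ t2 k = cz y (update v k x) := by
  funext n
  rcases cz_or n with rfl | ⟨m, rfl⟩ | ⟨m, rfl⟩
  · simp only [comp, t2, if_true, update_self, cz_zero]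
  · simp only [comp, t2]
    rw [if_neg (by omega), cz_even]
    split_ifs with h1 h2
    · rw [update_of_ne (by omega), update_self, show m = k by omega, update_self]
    · omega
    · rw [update_of_ne (by omega), update_of_ne (by omega), cz_even,
        update_of_ne (by omega)]
  · simp only [comp, t2]
    rw [if_neg (by omega), if_neg (by omega), if_pos (by omega), update_of_ne (by omega),
      update_of_ne (by omega), show 2 * m + 1 + 4 = 2 * (m + 2) + 1 by omega, cz_odd, cz_odd]

theorem SR.and {R R' : (ℕ → K) → Prop} (h : SR A R) (h' : SR A R') :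
    SR A fun v => R v ∧ R' v := by
  obtain ⟨Q, hQ, h⟩ := h
  obtain ⟨Q', hQ', h'⟩ := h'
  refine ⟨_, ((hQ.sub t1_inj).bex (k := 1) (m := 0) (by omega)).and
    ((hQ'.sub t1_inj).bex (k := 1) (m := 0) (by omega)), fun v => ?_⟩
  simp only [cz_t1, cz_zero, h v, h' v]
  constructor
  · rintro ⟨⟨z, hz⟩, z', hz'⟩
    exact ⟨max z z' + 1, ⟨z, lt_of_le_of_lt (le_max_left _ _) (lt_add_one _), hz⟩, z',
      lt_of_le_of_lt (le_max_right _ _) (lt_add_one _), hz'⟩
  · rintro ⟨_, ⟨z, _, hz⟩, z', _, hz'⟩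
    exact ⟨⟨z, hz⟩, z', hz'⟩

theorem SR.ex {R : (ℕ → K) → Prop} (h : SR A R) (k : ℕ) :
    SR A fun v => ∃ x, R (update v k x) := by
  obtain ⟨Q, hQ, h⟩ := h
  refine ⟨_, (((hQ.sub (t2_inj k)).bex (k := 3) (m := 0) (by omega)).bex (k := 1) (m := 0)
    (by omega)), fun v => ?_⟩
  have e : ∀ z x : K, update (cz z v) 1 x 0 = z := fun z x => by
    rw [update_of_ne (by omega), cz_zero]
  simp only [cz_t2, cz_zero, e, h]
  constructor
  · rintro ⟨x, z, hz⟩
    exact ⟨max x z + 1, x, lt_of_le_of_lt (le_max_left _ _) (lt_add_one _), z,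
      lt_of_le_of_lt (le_max_right _ _) (lt_add_one _), hz⟩
  · rintro ⟨_, x, _, z, _, hz⟩
    exact ⟨x, z, hz⟩

/-- Injective substitution of variables. -/
theorem SR.sub {R : (ℕ → K) → Prop} (h : SR A R) {σ : ℕ → ℕ} (hσ : Injective σ) :
    SR A fun v => R (v ∘ σ) := by
  obtain ⟨Q, hQ, h⟩ := h
  obtain ⟨f, hf⟩ : ∃ f : ℕ → ℕ, f = fun n =>
    if n = 0 then 0 else if n % 2 = 0 then 2 * σ (n / 2 - 1) + 2 else n := ⟨_, rfl⟩
  have f0 : f 0 = 0 := by rw [hf]; rfl
  have f1 : ∀ m, f (2 * m + 2) = 2 * σ m + 2 := fun m => by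
    simp only [hf]
    rw [if_neg (by omega), if_pos (by omega), show (2 * m + 2) / 2 - 1 = m by omega]
  have f2 : ∀ m, f (2 * m + 1) = 2 * m + 1 := fun m => by
    simp only [hf]
    rw [if_neg (by omega), if_neg (by omega)]
  have hinj : Injective f := fun a b hab => by
    rcases cz_or a with rfl | ⟨m, rfl⟩ | ⟨m, rfl⟩ <;>
      rcases cz_or b with rfl | ⟨l, rfl⟩ | ⟨l, rfl⟩ <;> simp only [f0, f1, f2] at hab ⊢
    · omega
    · omega
    · omega
    · have h8 := hσ (show σ m = σ l by omega)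
      omega
    · omega
    · omega
    · omega
    · exact hab
  refine ⟨_, hQ.sub hinj, fun v => ?_⟩
  have k : ∀ z : K, cz z v ∘ f = cz z (v ∘ σ) := fun z => by
    funext n
    rcases cz_or n with rfl | ⟨m, rfl⟩ | ⟨m, rfl⟩
    · simp only [comp, f0, cz_zero]
    · simp only [comp, f1, cz_even]
    · simp only [comp, f2, cz_odd]
  simp only [k]
  exact h _

/-- Finite conjunctions. -/
theorem SR.all (h0 : (0 : K) ∈ A) {ι : Type} (F : Finset ι) {R : ι → (ℕ → K) → Prop}
    (h : ∀ j ∈ F, SR A (R j)) : SR A fun v => ∀ j ∈ F, R j v := by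
  classical
  induction F using Finset.induction with
  | empty =>
    refine (DR.sat h0 (.eq .zero .zero)).sr.congr fun v => ?_
    simp [Sat]
  | insert a F ha ih =>
    refine ((h a (Finset.mem_insert_self a F)).and (ih fun j hj =>
      h j (Finset.mem_insert_of_mem hj))).congr fun v => ?_
    simp only [Finset.mem_insert, forall_eq_or_imp]

/-- Finite blocks of existential quantifiers. -/
theorem SR.exs {R : (ℕ → K) → Prop} (h : SR A R) (F : Finset ℕ) :
    SR A fun v => ∃ u : ℕ → K, (∀ i, i ∉ F → u i = v i) ∧ R u := by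
  induction F using Finset.induction with
  | empty =>
    refine h.congr fun v => ⟨?_, fun hv => ⟨v, fun _ _ => rfl, hv⟩⟩
    rintro ⟨u, hu, hR⟩
    have e : u = v := funext fun i => hu i (Finset.notMem_empty i)
    rwa [e] at hR
  | insert k F hk ih =>
    refine (ih.ex k).congr fun v => ⟨?_, ?_⟩
    · rintro ⟨u, hu, hR⟩
      refine ⟨u k, u, fun i hi => ?_, hR⟩
      rcases eq_or_ne i k with h1 | h1
      · rw [h1, update_self]
      · rw [update_of_ne h1]
        exact hu i (by
          rw [Finset.mem_insert]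
          exact fun h2 => h2.elim h1 hi)
    · rintro ⟨x, u, hu, hR⟩
      refine ⟨u, fun i hi => ?_, hR⟩
      rw [Finset.mem_insert] at hi
      push Not at hi
      rw [hu i hi.2, update_of_ne hi.1]

end RN
end Pool.FDA
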